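import Pool.Agent.H90.PRK.TKLK
import Pool.Agent.H69.HYP.TYQ
import Pool.Agent.H50.T1.CMPK

/-!
# PRK, row TAK: the types over `K`
-/

set_option autoImplicit false

namespace Pool.PRK

open Polynomial Matrix Pool.HYP Pool.TOW Pool.AVS Pool.T1 IsDedekindDomain

namespace TA90

open Pool.T1.INOK43

/-- Change of the uniformizer. -/
theorem change {R : Type} [CommRing R] [IsDedekindDomain R] {K : Type} [Field K] [Algebra R K]
    [IsFractionRing R K] {P : HeightOneSpectrum R} {ϖ' : R} {L : Type} [Field L]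
    {O' : ValuationSubring L} {ι : K →+* L} (h : CompP P ϖ' L O' ι) {ϖ : R}
    (h1 : ϖ ∈ P.asIdeal) (h2 : ϖ ∉ P.asIdeal ^ 2) : CompP P ϖ L O' ι := by
  have hπ := h.loc.pi_ne
  obtain ⟨r, hr⟩ : ∃ r : L, r = ι (algebraMap R K ϖ) / ι (algebraMap R K ϖ') := ⟨_, rfl⟩
  have hrO : r ∈ O' := by rw [hr]; exact (h.mem ϖ).2 h1
  have hr0 : r ≠ 0 := by
    rintro h0
    apply h2
    have h3 : ι (algebraMap R K ϖ) = 0 := by
      have h4 : ι (algebraMap R K ϖ) = r * ι (algebraMap R K ϖ') := by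
        rw [hr]
        field_simp
      rw [h4, h0, zero_mul]
    apply sq_iff h
    rw [h3, zero_div]
    exact zero_mem O'
  have hriO : r⁻¹ ∈ O' := by
    by_contra hn
    apply h2
    apply sq_iff h
    have h3 := (h.loc.unif r hrO hr0).1 hn
    have h4 : ι (algebraMap R K ϖ) / ι (algebraMap R K ϖ') ^ 2 = r / ι (algebraMap R K ϖ') := by
      rw [hr]
      field_simp
    rw [h4]
    exact h3
  have hϖ : ι (algebraMap R K ϖ) = r * ι (algebraMap R K ϖ') := by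
    rw [hr]
    field_simp
  have hz : ∀ n : ℤ, r ^ n ∈ O' := by
    intro n
    obtain ⟨k, rfl | rfl⟩ := Int.eq_nat_or_neg n
    · rw [zpow_natCast]
      exact pow_mem hrO k
    · rw [_root_.zpow_neg, zpow_natCast, ← inv_pow]
      exact pow_mem hriO k
  have hmem : ∀ x : L, x / ι (algebraMap R K ϖ) ∈ O' ↔ x / ι (algebraMap R K ϖ') ∈ O' := by
    intro x
    constructor
    · intro hx
      have h3 : x / ι (algebraMap R K ϖ') = x / ι (algebraMap R K ϖ) * r := by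
        rw [hϖ]
        field_simp
      rw [h3]
      exact mul_mem hx hrO
    · intro hx
      have h3 : x / ι (algebraMap R K ϖ) = x / ι (algebraMap R K ϖ') * r⁻¹ := by
        rw [hϖ]
        field_simp
      rw [h3]
      exact mul_mem hx hriO
  refine ⟨⟨h.loc.two, ?_, h.int ϖ, ?_, ?_, h.loc.hens, h.loc.fin⟩, h.int, ?_, h.cpl⟩
  · rw [hϖ]
    exact mul_ne_zero hr0 hπ
  · intro x hx hx0
    rw [hmem]
    exact h.loc.unif x hx hx0
  · intro x hx0
    obtain ⟨n, h3, h4⟩ := h.loc.arch x hx0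
    refine ⟨n, ?_, ?_⟩
    · have h5 : x / ι (algebraMap R K ϖ) ^ n = x / ι (algebraMap R K ϖ') ^ n * r ^ (-n) := by
        rw [hϖ, mul_zpow, _root_.zpow_neg]
        field_simp
      rw [h5]
      exact mul_mem h3 (hz _)
    · have h5 : (x / ι (algebraMap R K ϖ) ^ n)⁻¹ =
          (x / ι (algebraMap R K ϖ') ^ n)⁻¹ * r ^ n := by
        rw [hϖ, mul_zpow]
        field_simp
      rw [h5]
      exact mul_mem h4 (hz _)
  · intro a
    rw [hmem]
    exact h.mem a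

end TA90

/-- **TAK.** -/
theorem tak (hTKL : TKLKStmt) (hCMP : CMPKStmt) (hINO : INOKStmt) : TAKStmt := by
  intro R _ _ K _ _ _ O π hGR P ϖ hϖ1 hϖ2 g c γ f hg hok hf hfn hz
  obtain ⟨ϖ', L, _, O', ι, -, -, hC'⟩ := hCMP R K O π hGR P
  have hC : CompP P ϖ L O' ι := TA90.change hC' hϖ1 hϖ2
  obtain ⟨c', γ', hk, hfL, hiff⟩ := hTKL R K P ϖ L O' ι hC g c γ f hg hok hf hfn hz
  have hfK : (fk K f).Monic := hf.map _
  have hcop : ∀ α : K[X], IsCoprime α (fk K f) →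
      IsCoprime (α.map ι) (oL O' ((X - C c') * γ')) := fun α hα => by
    rw [← hfL]
    exact One86.cop_map ι hα
  have hnsq : ∀ α : K[X], NSq (fk K f) α → NSq (oL O' ((X - C c') * γ')) (α.map ι) :=
    fun α hα => by
    rw [← hfL]
    exact One86.nsq_map ι hfK hα
  obtain ⟨fO, -, -, hfO, -, -, -, hUS, hTR⟩ := hINO R K P ϖ L O' ι hC f hf
  have hfO' : fO = (X - C c') * γ' := by
    apply Pool.T1.INOK43.oL_inj
    rw [hfO, hfL]
  subst hfO'
  refine ⟨?_, ?_, ?_, ?_, ?_⟩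
  · intro α hα hN
    obtain ⟨x, hx⟩ := cla unr L O' _ hC.loc g c' γ' hg hk _ (hcop α hα)
    refine ⟨x, (hiff α hα hN x).2 hx, fun y hy => ?_⟩
    exact tyq unr L O' _ hC.loc g c' γ' hg hk _ _ _ ((hiff α hα hN y).1 hy) hx
  · intro α β x y hα hNα hβ hNβ hx hy
    refine (hiff (α * β) (hα.mul_left hβ) (One86.nsq_mul hNα hNβ) (x + y)).2 ?_
    rw [Polynomial.map_mul]
    exact tym unr nmu L O' _ hC.loc g c' γ' hg hk _ _ x y (hcop α hα) (hcop β hβ)
      (hnsq α hNα) (hnsq β hNβ) ((hiff α hα hNα x).1 hx) ((hiff β hβ hNβ y).1 hy)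
  · intro α β s x _ _ hs hd ht
    obtain ⟨s0, p, hs0, hd0, hp, hsq⟩ := ht
    obtain ⟨a, b, hab⟩ := hs
    have ha : IsCoprime a (fk K f) := ⟨s, b, by rw [← hab]; ring⟩
    refine ⟨a * s0, p, ha.mul_left hs0, ?_, hp, hsq⟩
    obtain ⟨w, hw⟩ := hd
    obtain ⟨w0, hw0⟩ := hd0
    refine ⟨w * (a * s0) ^ 2 + w0 - α * s0 ^ 2 * (b * (1 + a * s)), ?_⟩
    linear_combination (a * s0) ^ 2 * hw + hw0 + α * s0 ^ 2 * (1 + a * s) * hab
  · intro α x hα hN hx
    rw [← hUS α hα]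
    exact tyu unr nmu L O' _ hC.loc g c' γ' hg hk _ x (hcop α hα) (hnsq α hN)
      ((hiff α hα hN x).1 hx)
  · intro α hα hN hx
    refine hTR α hα ?_
    exact ty0_of unr L O' _ hC.loc g c' γ' hg hk _ (hcop α hα) (hnsq α hN)
      ((hiff α hα hN 0).1 hx)

end Pool.PRK
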