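import Pool.Agent.H72.PRK.S2
import Pool.Agent.H43.T1.INOK
import Pool.Agent.H69.HYP.TYS
import Pool.Agent.H69.HYP.TYM
import Pool.Agent.H9.HYP.TYU
import Pool.Agent.H97.HYP.LDE
import Pool.Agent.H97.HYP.TY0
import Pool.Agent.H74.HYP.UNR
import Pool.Agent.H70.HYP.NMU
import Pool.Agent.H86.HYP.ONE

/-!
# PRK, row TKLK: the type over `K` and the type over a completion
-/

set_option autoImplicit false

namespace Pool.PRK

open Polynomial Matrix Pool.HYP Pool.TOW Pool.AVS Pool.T1 IsDedekindDomain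

namespace TK90

section Loc

variable {L : Type} [Field L]

open Pool.HYP.Tyu9 in
/-- If the orders are even, the class is the class of a unit with given value. -/
theorem usl_dir {O : ValuationSubring L} {π : L} (hL : Loc L O π) {g : ℕ} {c : O} {γ : O[X]}
    (hg : 1 ≤ g) (hγ : OkL O g γ) {h : L[X]} {m i : ℤ} {p : O[X]} {u : L}
    (hp : IsCoprime (rd O p) (rd O γ)) (hdv : oL O γ ∣ h - C (π ^ (2 * m)) * oL O p)
    (hhu : h.eval (c : L) = π ^ (2 * i) * u) (hUIu : UI (O : Set L) u) :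
    ∃ (s : L[X]) (P : O[X]), oL O ((X - C c) * γ) ∣ h * s ^ 2 - oL O P ∧
      IsCoprime (rd O P) (rd O ((X - C c) * γ)) ∧ ((P.eval c : O) : L) = u := by
  have hπ := hL.pi_ne
  have hm := hγ.1
  have hγc := eval_unit hg hγ c
  have hγc' : (oL O γ).eval (c : L) ≠ 0 := by
    rw [ev_oL]
    intro h0
    exact hγc.ne_zero (Subtype.ext h0)
  have hmul : oL O ((X - C c) * γ) = (X - C (c : L)) * oL O γ := by
    rw [oL_mul, Tyu9.oL_lin]
  have hXγ : IsCoprime (X - C (c : L)) (oL O γ) := by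
    refine (irreducible_X_sub_C (c : L)).coprime_iff_not_dvd.mpr ?_
    rw [dvd_iff_isRoot]
    exact hγc'
  have hu0 := hUIu.1
  set u' : O := ⟨u, hUIu.2.1⟩ with hu'
  have hu'u : IsUnit u' := by
    refine IsUnit.of_mul_eq_one (⟨u⁻¹, hUIu.2.2⟩ : O) ?_
    apply Subtype.ext
    exact mul_inv_cancel₀ hu0
  obtain ⟨γi, hγi⟩ := hγc.exists_right_inv
  set P : O[X] := p + γ * C ((u' - p.eval c) * γi) with hP
  have hPc : P.eval c = u' := by
    rw [hP, eval_add, eval_mul, eval_C]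
    linear_combination (u' - p.eval c) * hγi
  set s : L[X] := C (π ^ (-m)) + oL O γ * C ((π ^ (-i) - π ^ (-m)) * ((oL O γ).eval (c : L))⁻¹)
    with hs
  have hsc : s.eval (c : L) = π ^ (-i) := by
    rw [hs, eval_add, eval_mul, eval_C, eval_C]
    field_simp
    ring
  refine ⟨s, P, ?_, ?_, ?_⟩
  · rw [hmul]
    refine hXγ.mul_dvd ?_ ?_
    · rw [dvd_iff_isRoot, IsRoot.def, eval_sub, eval_mul, eval_pow, hsc, ev_oL, hPc, hhu]
      have e1 : (π ^ (-i)) ^ 2 * π ^ (2 * i) = 1 := by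
        rw [← zpow_natCast, ← _root_.zpow_mul, ← zpow_add₀ hπ]
        rw [show -i * ((2 : ℕ) : ℤ) + 2 * i = 0 by push_cast; ring, zpow_zero]
      show π ^ (2 * i) * u * (π ^ (-i)) ^ 2 - u = 0
      linear_combination u * e1
    · obtain ⟨a1, ha1⟩ := hdv
      have e1 : (C (π ^ (2 * m)) : L[X]) * C (π ^ (-m)) ^ 2 = 1 := by
        rw [← C_pow, ← C_mul, ← zpow_natCast, ← _root_.zpow_mul, ← zpow_add₀ hπ]
        rw [show 2 * m + -m * ((2 : ℕ) : ℤ) = 0 by push_cast; ring, zpow_zero, C_1]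
      have e2 : oL O P = oL O p + oL O γ * oL O (C ((u' - p.eval c) * γi)) := by
        rw [hP, oL_add, oL_mul]
      have e3 : h = C (π ^ (2 * m)) * oL O p + oL O γ * a1 := by rw [← ha1]; ring
      rw [e2]
      set A := C ((π ^ (-i) - π ^ (-m)) * ((oL O γ).eval (c : L))⁻¹) with hA
      set B := oL O (C ((u' - p.eval c) * γi)) with hB
      refine ⟨a1 * s ^ 2 + C (π ^ (2 * m)) * oL O p * (2 * C (π ^ (-m)) * A + oL O γ * A ^ 2)
        - B, ?_⟩
      have e4 : h * s ^ 2 = (C (π ^ (2 * m)) * oL O p + oL O γ * a1) * s ^ 2 := by rw [← e3]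
      rw [e4, hs]
      linear_combination (oL O p) * e1
  · rw [rd_mul]
    refine IsCoprime.mul_right ?_ ?_
    · rw [rd_lin, isCoprime_comm]
      refine (irreducible_X_sub_C _).coprime_iff_not_dvd.mpr ?_
      rw [dvd_iff_isRoot, IsRoot.def, eval_map, eval₂_hom, hPc]
      intro h3
      rw [IsLocalRing.residue_eq_zero_iff] at h3
      exact (IsLocalRing.mem_maximalIdeal _).mp h3 hu'u
    · have h3 : rd O P = rd O p + rd O γ * rd O (C ((u' - p.eval c) * γi)) := by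
        rw [hP, rd_add, rd_mul]
      rw [h3]
      exact hp.add_mul_left_left _
  · rw [hPc]

theorem sqm {k : Type} [Field k] {a b : k} (ha : a ≠ 0) : IsSquare (a ^ 2 * b) ↔ IsSquare b := by
  constructor
  · rintro ⟨r, hr⟩
    refine ⟨r / a, ?_⟩
    field_simp
    linear_combination hr
  · rintro ⟨r, hr⟩
    exact ⟨a * r, by rw [hr]; ring⟩

theorem ev_res {O : ValuationSubring L} (q : O[X]) (z : O) :
    IsLocalRing.residue O (q.eval z) = (rd O q).eval (IsLocalRing.residue O z) := by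
  rw [eval_map, eval₂_hom]

end Loc

section Glob

open Pool.T1.INOK43

variable {R : Type} [CommRing R] [IsDedekindDomain R] {K : Type} [Field K] [Algebra R K]
  [IsFractionRing R K] {P : HeightOneSpectrum R} {ϖ : R} {L : Type} [Field L]
  {O' : ValuationSubring L} {ι : K →+* L}

theorem sq_mk (h : CompP P ϖ L O' ι) (z : R) :
    IsSquare (Ideal.Quotient.mk P.asIdeal z) ↔ IsSquare (res h z) := by
  constructor
  · rintro ⟨y, hy⟩
    obtain ⟨w, rfl⟩ := Ideal.Quotient.mk_surjective y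
    have h1 : z - w * w ∈ P.asIdeal := by
      rw [← Ideal.Quotient.eq_zero_iff_mem, map_sub, map_mul, hy, sub_self]
    have h2 := (res_zero h _).2 h1
    rw [map_sub, map_mul, sub_eq_zero] at h2
    exact ⟨_, h2⟩
  · rintro ⟨y, hy⟩
    obtain ⟨w, rfl⟩ := res_surj h y
    have h1 : z - w * w ∈ P.asIdeal := by
      rw [← res_zero h, map_sub, map_mul, hy, sub_self]
    rw [← Ideal.Quotient.eq_zero_iff_mem, map_sub, map_mul, sub_eq_zero] at h1
    exact ⟨_, h1⟩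

theorem ev_phi (h : CompP P ϖ L O' ι) {c : R} {c' : O'}
    (hc : IsLocalRing.residue O' c' = res h c) (q : R[X]) :
    IsLocalRing.residue O' ((q.map (phi h)).eval c') = res h (q.eval c) := by
  rw [ev_res, rd_map, hc, eval_map, eval₂_hom]

/-- The local data. -/
theorem dat (h : CompP P ϖ L O' ι) {g : ℕ} {c : R} {γ f : R[X]} (hg : 1 ≤ g)
    (hok : OkP (2 * g) P.asIdeal γ) (hf : f.Monic)
    (hz : Zer P.asIdeal (f - (X - C c) * γ)) :
    ∃ (c' : O') (γ' : O'[X]), OkL O' g γ' ∧ f.map (phi h) = (X - C c') * γ' ∧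
      IsLocalRing.residue O' c' = res h c ∧ rd O' γ' = γ.map (res h) := by
  obtain ⟨hγm, hγd, hγi⟩ := hok
  have hrdf : rd O' (f.map (phi h)) = (X - C (res h c)) * γ.map (res h) := by
    have h6 := (map_res_zero h _).2 hz
    rw [Polynomial.map_sub, Polynomial.map_mul, Polynomial.map_sub, map_X, map_C,
      sub_eq_zero] at h6
    rw [rd_map, h6]
  exact lde L O' (ι (algebraMap R K ϖ)) h.loc g (f.map (phi h)) (res h c) (γ.map (res h)) hg
    (hf.map _) (hγm.map _) (by rw [hγm.natDegree_map, hγd]) ((irr_iff h γ).1 hγi) hrdf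

/-- The values at the point `c`. -/
theorem vals (h : CompP P ϖ L O' ι) {g : ℕ} {c : R} {γ f p : R[X]} (_hg : 1 ≤ g)
    (hok : OkP (2 * g) P.asIdeal γ) (hz : Zer P.asIdeal (f - (X - C c) * γ)) :
    res h (γ.eval c) ≠ 0 ∧
      (IsCoprime (md P.asIdeal p) (md P.asIdeal f) → res h (p.eval c) ≠ 0 ∧
        IsCoprime (p.map (res h)) (γ.map (res h))) := by
  obtain ⟨hγm, hγd, hγi⟩ := hok
  have hirr := (irr_iff h γ).1 hγi
  have hev : ∀ q : R[X], res h (q.eval c) = (q.map (res h)).eval (res h c) := fun q => by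
    rw [eval_map, eval₂_hom]
  have h6 := (map_res_zero h _).2 hz
  rw [Polynomial.map_sub, Polynomial.map_mul, Polynomial.map_sub, map_X, map_C,
    sub_eq_zero] at h6
  refine ⟨fun h0 => ?_, fun hc => ⟨fun h0 => ?_, ?_⟩⟩
  · rw [hev] at h0
    have h3 := degree_eq_one_of_irreducible_of_root hirr h0
    have h4 : (γ.map (res h)).natDegree = 2 * g := by rw [hγm.natDegree_map, hγd]
    have h5 := natDegree_eq_of_degree_eq_some (n := 1) h3
    omega
  · rw [cop_iff h, h6] at hc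
    obtain ⟨a, b, hab⟩ := hc.of_mul_right_left
    have h2 := congrArg (eval (res h c)) hab
    rw [hev] at h0
    simp [h0] at h2
  · rw [cop_iff h, h6] at hc
    exact hc.of_mul_right_right

/-- The element `(γ² + ϖ)^e` over the completion. -/
theorem bmap (h : CompP P ϖ L O' ι) {γ : R[X]} {γ' : O'[X]} (hγ' : rd O' γ' = γ.map (res h)) :
    ∃ δ : O'[X], (γ ^ 2 + C ϖ).map (phi h) =
      γ' * (γ' + 2 * C (phi h ϖ) * δ) + C (phi h ϖ) * (1 + C (phi h ϖ) * δ ^ 2) := by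
  obtain ⟨δ, hδ⟩ := rd_zero h (ϖ' := phi h ϖ) rfl (γ.map (phi h) - γ') (by
    rw [rd, Polynomial.map_sub]
    show rd O' (γ.map (phi h)) - rd O' γ' = 0
    rw [rd_map, hγ', sub_self])
  refine ⟨δ, ?_⟩
  rw [Polynomial.map_add, Polynomial.map_pow, map_C]
  have h1 : γ.map (phi h) = γ' + C (phi h ϖ) * δ := by rw [← hδ]; ring
  rw [h1]
  ring

theorem bcong (h : CompP P ϖ L O' ι) {γ : R[X]} {γ' : O'[X]} (hγ' : rd O' γ' = γ.map (res h))
    (e : ℕ) (he : e = 0 ∨ e = 1) :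
    ∃ q : O'[X], rd O' q = 1 ∧
      oL O' γ' ∣ (fk K ((γ ^ 2 + C ϖ) ^ e)).map ι - C ((ι (algebraMap R K ϖ)) ^ (e : ℤ)) * oL O' q := by
  rcases he with rfl | rfl
  · refine ⟨1, by simp [rd], ?_⟩
    simp [fk, oL]
  · obtain ⟨δ, hδ⟩ := bmap h hγ'
    refine ⟨1 + C (phi h ϖ) * δ ^ 2, ?_, ?_⟩
    · have h0 : IsLocalRing.residue O' (phi h ϖ) = 0 := (res_zero h ϖ).2 (pi_mem h)
      rw [rd, Polynomial.map_add, Polynomial.map_mul, map_C, h0, C_0, zero_mul, add_zero,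
        Polynomial.map_one]
    · rw [pow_one, ← oL_map h, hδ]
      have h1 : (C (ι (algebraMap R K ϖ) ^ ((1 : ℕ) : ℤ)) : L[X]) = oL O' (C (phi h ϖ)) := by
        rw [oL, map_C]
        simp only [Nat.cast_one, zpow_one]
        rfl
      rw [h1]
      refine ⟨oL O' (γ' + 2 * C (phi h ϖ) * δ), ?_⟩
      rw [oL, Polynomial.map_add, Polynomial.map_mul, Polynomial.map_mul]
      simp only [oL]
      ring

theorem ev_map (h : CompP P ϖ L O' ι) (c' : O') (q : R[X]) :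
    ((fk K q).map ι).eval (c' : L) = (((q.map (phi h)).eval c' : O') : L) := by
  rw [← oL_map h, Tyu9.ev_oL]

/-- From a class over `K` to the completion. -/
theorem up (hTYS : TYSStmt) (h : CompP P ϖ L O' ι) {g : ℕ} {c : R} {γ f : R[X]} (hg : 1 ≤ g)
    (hok : OkP (2 * g) P.asIdeal γ) (hz : Zer P.asIdeal (f - (X - C c) * γ))
    {c' : O'} {γ' : O'[X]} (hk : OkL O' g γ') (hfc : f.map (phi h) = (X - C c') * γ')
    (hc' : IsLocalRing.residue O' c' = res h c) (hγ' : rd O' γ' = γ.map (res h))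
    {α : K[X]} {x : Ty} (ht : TyK P.asIdeal ϖ c γ f x α) :
    TyL O' (ι (algebraMap R K ϖ)) c' γ' x (α.map ι) := by
  obtain ⟨s, p, hs, hd, hp, hsq⟩ := ht
  have hfL : (fk K f).map ι = oL O' ((X - C c') * γ') := by rw [← hfc, oL_map]
  obtain ⟨a, b, hab⟩ := hs
  obtain ⟨hγc, hv⟩ := vals h hg hok (p := p) hz
  obtain ⟨hpc, hpγ⟩ := hv hp
  have he : x.1.val = 0 ∨ x.1.val = 1 := by
    have := ZMod.val_lt x.1
    omega
  have ha : IsCoprime (a.map ι) (oL O' ((X - C c') * γ')) := by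
    rw [← hfL]
    have h1 : IsCoprime a (fk K f) := ⟨s, b, by rw [← hab]; ring⟩
    exact h1.map (Polynomial.mapRingHom ι)
  have hdiv : oL O' ((X - C c') * γ') ∣ α.map ι -
      (fk K ((γ ^ 2 + C ϖ) ^ x.1.val * p)).map ι * (a.map ι) ^ 2 := by
    rw [← hfL]
    have h1 : fk K f ∣ α - fk K ((γ ^ 2 + C ϖ) ^ x.1.val * p) * a ^ 2 := by
      obtain ⟨q, hq⟩ := hd
      refine ⟨α * (b * (1 + a * s)) + q * a ^ 2, ?_⟩
      linear_combination -(α * (1 + a * s)) * hab + a ^ 2 * hq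
    have h2 := Polynomial.map_dvd ι h1
    rwa [Polynomial.map_sub, Polynomial.map_mul, Polynomial.map_pow] at h2
  refine hTYS L O' _ h.loc g c' γ' hg hk _ _ _ x ha hdiv ?_
  obtain ⟨q, hq1, hq2⟩ := bcong h hγ' x.1.val he
  refine ⟨(x.1.val : ℤ), q * p.map (phi h), ?_, ?_, ?_, ?_⟩
  · rw [rd, Polynomial.map_mul]
    show IsCoprime (rd O' q * rd O' (p.map (phi h))) (rd O' γ')
    rw [hq1, one_mul, rd_map, hγ']
    exact hpγ
  · have h1 : (fk K ((γ ^ 2 + C ϖ) ^ x.1.val * p)).map ι =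
        (fk K ((γ ^ 2 + C ϖ) ^ x.1.val)).map ι * oL O' (p.map (phi h)) := by
      rw [oL_map, fk, Polynomial.map_mul, Polynomial.map_mul]
    have h2 : oL O' (q * p.map (phi h)) = oL O' q * oL O' (p.map (phi h)) :=
      Polynomial.map_mul _
    rw [h1, h2]
    obtain ⟨w, hw⟩ := hq2
    refine ⟨w * oL O' (p.map (phi h)), ?_⟩
    linear_combination oL O' (p.map (phi h)) * hw
  · push_cast
    exact ZMod.natCast_zmod_val x.1
  · rw [hsq, ev_map h, Tyu9.ev_oL]
    have hz1 : ((((((γ ^ 2 + C ϖ) ^ x.1.val * p).map (phi h)).eval c' : O') : L) *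
        (((γ'.eval c' : O') : L)) ^ x.1.val) =
        (((((γ ^ 2 + C ϖ) ^ x.1.val * p).map (phi h)).eval c' * (γ'.eval c') ^ x.1.val : O') : L) := by
      push_cast
      rfl
    rw [hz1]
    have hres : IsLocalRing.residue O'
        ((((γ ^ 2 + C ϖ) ^ x.1.val * p).map (phi h)).eval c' * (γ'.eval c') ^ x.1.val) =
        (res h (γ.eval c) ^ x.1.val) ^ 2 * res h (p.eval c * (γ.eval c) ^ x.1.val) := by
      rw [map_mul, map_pow, ev_phi h hc', ev_res, hγ', hc', eval_map, eval₂_hom]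
      have h0 : res h ϖ = 0 := (res_zero h ϖ).2 (pi_mem h)
      simp only [eval_mul, eval_pow, eval_add, eval_C, map_mul, map_pow, map_add, h0, add_zero]
      ring
    have hne : IsLocalRing.residue O'
        ((((γ ^ 2 + C ϖ) ^ x.1.val * p).map (phi h)).eval c' * (γ'.eval c') ^ x.1.val) ≠ 0 := by
      rw [hres, map_mul, map_pow]
      exact mul_ne_zero (pow_ne_zero _ (pow_ne_zero _ hγc)) (mul_ne_zero hpc (pow_ne_zero _ hγc))
    have hun : IsUnit ((((γ ^ 2 + C ϖ) ^ x.1.val * p).map (phi h)).eval c' *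
        (γ'.eval c') ^ x.1.val) := by
      by_contra hn
      exact hne ((IsLocalRing.residue_eq_zero_iff _).2 ((IsLocalRing.mem_maximalIdeal _).2 hn))
    rw [Pool.HYP.H69.sq_res h.loc hun, hres, sqm (pow_ne_zero _ hγc), sq_mk h]

/-- From the completion to a class over `K`. -/
theorem down (hU : UNRStmt) (hN : NMUStmt) (h : CompP P ϖ L O' ι) {g : ℕ} {c : R}
    {γ f : R[X]} (hg : 1 ≤ g) (hf : f.Monic)
    (hok : OkP (2 * g) P.asIdeal γ) (hz : Zer P.asIdeal (f - (X - C c) * γ))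
    {c' : O'} {γ' : O'[X]} (hk : OkL O' g γ') (hfc : f.map (phi h) = (X - C c') * γ')
    (hc' : IsLocalRing.residue O' c' = res h c) (hγ' : rd O' γ' = γ.map (res h))
    {α : K[X]} (hα : IsCoprime α (fk K f)) (hNα : NSq (fk K f) α) {x : Ty}
    (ht : TyL O' (ι (algebraMap R K ϖ)) c' γ' x (α.map ι)) :
    TyK P.asIdeal ϖ c γ f x α := by
  obtain ⟨n, p', hp', hdv, hn, hsq⟩ := ht
  have hπ := h.loc.pi_ne
  have hfL : (fk K f).map ι = oL O' ((X - C c') * γ') := by rw [← hfc, oL_map]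
  obtain ⟨hγc, -⟩ := vals h hg hok (p := 1) hz
  have he : x.1.val = 0 ∨ x.1.val = 1 := by
    have := ZMod.val_lt x.1
    omega
  obtain ⟨q, hq1, hq2⟩ := bcong h hγ' x.1.val he
  obtain ⟨e, hee⟩ : ∃ e : ℕ, e = x.1.val := ⟨_, rfl⟩
  unfold TyK
  rw [← hee] at hq2 hsq ⊢
  have hexe : ((e : ℤ) : ZMod 2) = x.1 := by
    rw [hee]
    push_cast
    exact ZMod.natCast_zmod_val x.1
  -- the order at the second prime
  obtain ⟨m, hm⟩ : ∃ m : ℤ, n + e = 2 * m := by
    have h1 : (((n + e : ℤ)) : ZMod 2) = 0 := by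
      push_cast at hexe ⊢
      rw [hn, hexe]
      exact CharTwo.add_self_eq_zero x.1
    rw [ZMod.intCast_zmod_eq_zero_iff_dvd] at h1
    obtain ⟨m, hm⟩ := h1
    exact ⟨m, by exact_mod_cast hm⟩
  -- the order at the first prime
  have hαL : IsCoprime (α.map ι) (oL O' ((X - C c') * γ')) := by
    rw [← hfL]
    exact hα.map (Polynomial.mapRingHom ι)
  have hNL : NSq (oL O' ((X - C c') * γ')) (α.map ι) := by
    rw [← hfL]
    exact One86.nsq_map ι (hf.map _) hNα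
  have hmul : oL O' ((X - C c') * γ') = (X - C (c' : L)) * oL O' γ' := by
    rw [Tyu9.oL_mul, Tyu9.oL_lin]
  have hαc : (α.map ι).eval (c' : L) ≠ 0 := by
    rw [hmul] at hαL
    obtain ⟨a, b, hab⟩ := hαL.of_mul_right_left
    intro h0
    have h2 := congrArg (eval (c' : L)) hab
    simp [h0] at h2
  obtain ⟨v, hv, hnv⟩ := Tyu9.norm_form hU h.loc hk hp' hdv
  obtain ⟨j, hj1, hj2⟩ := h.loc.arch _ hαc
  obtain ⟨u, hu⟩ : ∃ u : L, u = (α.map ι).eval (c' : L) / ι (algebraMap R K ϖ) ^ j := ⟨_, rfl⟩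
  rw [← hu] at hj1 hj2
  have hu0 : u ≠ 0 := by
    rw [hu]
    exact div_ne_zero hαc (zpow_ne_zero _ hπ)
  have hαu : (α.map ι).eval (c' : L) = ι (algebraMap R K ϖ) ^ j * u := by
    rw [hu]
    field_simp
  have hUIu : UI (O' : Set L) u := ⟨hu0, hj1, hj2⟩
  obtain ⟨i, rfl⟩ : ∃ i : ℤ, j = 2 * i := by
    refine Tyu9.even_of_sq h.loc hUIu hv (zpow_ne_zero (n * g) hπ) ?_
    have h1 := hNL
    unfold NSq at h1
    rw [hmul, hN.1 L _ _ _ (monic_X_sub_C _) (hk.1.map _), hN.2.1 L, hnv, hαu] at h1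
    exact h1
  -- the unit at the first prime
  obtain ⟨b', hb'⟩ : ∃ b' : O', b' = (((γ ^ 2 + C ϖ) ^ e).map (phi h)).eval c' := ⟨_, rfl⟩
  have hbres : IsLocalRing.residue O' b' = (res h (γ.eval c) ^ e) ^ 2 := by
    rw [hb', ev_phi h hc']
    have h0 : res h ϖ = 0 := (res_zero h ϖ).2 (pi_mem h)
    simp only [eval_pow, eval_add, eval_C, map_pow, map_add, h0, add_zero]
    ring
  have hbu : IsUnit b' := by
    by_contra hn
    have h1 := (IsLocalRing.residue_eq_zero_iff _).2 ((IsLocalRing.mem_maximalIdeal _).2 hn)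
    rw [hbres] at h1
    exact pow_ne_zero _ (pow_ne_zero _ hγc) h1
  obtain ⟨u', hu'⟩ : ∃ u' : O', (u' : L) = u := ⟨⟨u, hj1⟩, rfl⟩
  have hu'u : IsUnit u' := Pool.HYP.H69.isUnit_of_ui (by rw [hu']; exact hUIu)
  have hUI : UI (O' : Set L) (((u' * b' : O') : L)) := Pool.HYP.H69.ui_coe (hu'u.mul hbu)
  have hHc : ((α * fk K ((γ ^ 2 + C ϖ) ^ e)).map ι).eval (c' : L) =
      ι (algebraMap R K ϖ) ^ (2 * i) * ((u' * b' : O') : L) := by
    rw [Polynomial.map_mul, eval_mul, hαu, ev_map h, ← hb', MulMemClass.coe_mul, hu']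
    ring
  have hHd : oL O' γ' ∣ (α * fk K ((γ ^ 2 + C ϖ) ^ e)).map ι -
      C (ι (algebraMap R K ϖ) ^ (2 * m)) * oL O' (p' * q) := by
    have h1 : (C (ι (algebraMap R K ϖ) ^ (2 * m)) : L[X]) =
        C (ι (algebraMap R K ϖ) ^ n) * C (ι (algebraMap R K ϖ) ^ (e : ℤ)) := by
      rw [← C_mul, ← zpow_add₀ hπ, hm]
    have h2 : oL O' (p' * q) = oL O' p' * oL O' q := Polynomial.map_mul _
    obtain ⟨w1, hw1⟩ := hdv
    obtain ⟨w2, hw2⟩ := hq2
    rw [Polynomial.map_mul, h1, h2]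
    refine ⟨w1 * (fk K ((γ ^ 2 + C ϖ) ^ e)).map ι +
      C (ι (algebraMap R K ϖ) ^ n) * oL O' p' * w2, ?_⟩
    linear_combination (fk K ((γ ^ 2 + C ϖ) ^ e)).map ι * hw1 +
      C (ι (algebraMap R K ϖ) ^ n) * oL O' p' * hw2
  have hpq : IsCoprime (rd O' (p' * q)) (rd O' γ') := by
    rw [rd, Polynomial.map_mul]
    show IsCoprime (rd O' p' * rd O' q) (rd O' γ')
    rw [hq1, mul_one]
    exact hp'
  obtain ⟨s0, P0, hd0, hP0, hPc⟩ := usl_dir h.loc hg hk hpq hHd hHc hUI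
  rw [← hfc] at hd0 hP0
  obtain ⟨s1, q1, h1, h2⟩ := main h f hf (α * fk K ((γ ^ 2 + C ϖ) ^ e)) s0 P0 hd0
  rw [← h2, rd_map] at hP0
  have h3 := cop h f q1 hf hP0
  refine ⟨fk K ((γ ^ 2 + C ϖ) ^ e) * s1, q1, ?_, ?_, (cop_iff h q1 f).2 hP0, ?_⟩
  · obtain ⟨w, hw⟩ := h1
    have h4 : IsCoprime (α * fk K ((γ ^ 2 + C ϖ) ^ e) * s1 ^ 2) (fk K f) := by
      have h5 : α * fk K ((γ ^ 2 + C ϖ) ^ e) * s1 ^ 2 = fk K q1 + fk K f * w := by
        rw [← hw]; ring
      rw [h5]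
      exact h3.add_mul_left_left w
    exact h4.of_isCoprime_of_dvd_left ⟨α * s1, by ring⟩
  · obtain ⟨w, hw⟩ := h1
    have h5 : fk K ((γ ^ 2 + C ϖ) ^ e * q1) = fk K ((γ ^ 2 + C ϖ) ^ e) * fk K q1 :=
      Polynomial.map_mul _
    rw [h5]
    refine ⟨fk K ((γ ^ 2 + C ϖ) ^ e) * w, ?_⟩
    linear_combination fk K ((γ ^ 2 + C ϖ) ^ e) * hw
  · have hz1 : (α.map ι).eval (c' : L) * ((oL O' γ').eval (c' : L)) ^ e =
        (ι (algebraMap R K ϖ) ^ i) ^ 2 * ((u' * (γ'.eval c') ^ e : O') : L) := by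
      rw [hαu, Tyu9.ev_oL, MulMemClass.coe_mul, hu', SubmonoidClass.coe_pow]
      have h6 : (ι (algebraMap R K ϖ) ^ i) ^ 2 = ι (algebraMap R K ϖ) ^ (2 * i) := by
        rw [← zpow_natCast, ← _root_.zpow_mul]
        congr 1
        push_cast
        ring
      rw [h6]
      ring
    have hγu : IsUnit (u' * (γ'.eval c') ^ e) :=
      hu'u.mul ((Tyu9.eval_unit hg hk c').pow e)
    have hγr : IsLocalRing.residue O' (γ'.eval c') = res h (γ.eval c) := by
      rw [ev_res, hγ', hc', eval_map, eval₂_hom]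
    have hq1c : res h (q1.eval c) = IsLocalRing.residue O' u' * (res h (γ.eval c) ^ e) ^ 2 := by
      have h6 : res h (q1.eval c) = (q1.map (res h)).eval (res h c) := by
        rw [eval_map, eval₂_hom]
      have h7 : P0.eval c' = u' * b' := Subtype.ext hPc
      rw [h6, h2, ← hc', ← ev_res, h7, map_mul, hbres]
    rw [hsq, hz1, sqm (zpow_ne_zero _ hπ), Pool.HYP.H69.sq_res h.loc hγu, sq_mk h, map_mul,
      map_pow, map_mul, map_pow, hγr, hq1c]
    have h8 : IsLocalRing.residue O' u' * (res h (γ.eval c) ^ e) ^ 2 * res h (γ.eval c) ^ e =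
        (res h (γ.eval c) ^ e) ^ 2 * (IsLocalRing.residue O' u' * res h (γ.eval c) ^ e) := by
      ring
    rw [h8, sqm (pow_ne_zero _ hγc)]

end Glob

end TK90

/-- **TKLK.** -/
theorem tklk : TKLKStmt := by
  intro R _ _ K _ _ _ P ϖ L _ O' ι h g c γ f hg hok hf _ hz
  obtain ⟨c', γ', hk, hfc, hc', hγ'⟩ := TK90.dat h hg hok hf hz
  refine ⟨c', γ', hk, by rw [← hfc, Pool.T1.INOK43.oL_map], fun α hα hN x => ⟨fun ht => ?_,
    fun ht => ?_⟩⟩
  · exact TK90.up (tys unr) h hg hok hz hk hfc hc' hγ' ht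
  · exact TK90.down unr nmu h hg hf hok hz hk hfc hc' hγ' hα hN ht

end Pool.PRK
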